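import Pool.Agent.Helper28.Ram.Goals

/-!
# The polynomials at the true values
-/

namespace Pool.Agent.Helper77.Ram

open Pool.Agent.Helper65.LinSpace Pool.Agent.Helper28.Ram Finset

theorem nA_top (m : Mach) (a q : ℕ) : m.nA m.G a q = a % 2 ^ m.σ := by
  unfold Mach.nA; rw [ifz_eq01, if_pos rfl]

theorem nN_top (m : Mach) (q v : ℕ) : m.nN m.G q v = q := by
  unfold Mach.nN; rw [ifz_eq01, if_pos rfl]

theorem nW_top (m : Mach) (q v : ℕ) : m.nW m.G q v = v := by
  unfold Mach.nW; rw [ifz_eq01, if_pos rfl]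

theorem nA_ne (m : Mach) {i : ℕ} (h : i ≠ m.G) (a q : ℕ) : m.nA i a q = m.A q := by
  unfold Mach.nA; rw [ifz_eq01, if_neg h]

theorem nN_ne (m : Mach) {i : ℕ} (h : i ≠ m.G) (q v : ℕ) : m.nN i q v = m.N q v := by
  unfold Mach.nN; rw [ifz_eq01, if_neg h]

theorem nW_ne (m : Mach) {i : ℕ} (h : i ≠ m.G) (q v : ℕ) : m.nW i q v = m.W q v := by
  unfold Mach.nW; rw [ifz_eq01, if_neg h]

/-- The node `G` keeps its configuration. -/
theorem nc_top (m : Mach) (k a r : ℕ) :
    m.nc k m.G a r = m.conf (k * (m.G * m.b) + m.G * m.b) := by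
  unfold Mach.nc
  induction r with
  | zero => rfl
  | succ r ih =>
    rw [cf, ih]
    simp only [nN_top, nW_top, Function.update_eq_self]

theorem TOP : TOP_stmt := by
  intro m p k a o
  unfold Mach.V Mach.T Mach.topc
  simp only [nc_top, nA_top, nW_top]
  have h : k * (m.G * m.b) + m.G * m.b = (k + 1) * (m.G * m.b) := by ring
  rw [h]

/-! ### Configurations -/

theorem cf_lt {A : ℕ → ℕ} {N W : ℕ → ℕ → ℕ} {q B : ℕ} {M : ℕ → ℕ}
    (hN : ∀ q < B, ∀ v < B, N q v < B) (hW : ∀ q < B, ∀ v < B, W q v < B) (hq : q < B)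
    (hM : ∀ x, M x < B) (t : ℕ) :
    (cf A N W q M t).1 < B ∧ ∀ x, (cf A N W q M t).2 x < B := by
  induction t with
  | zero => exact ⟨hq, hM⟩
  | succ t ih =>
    rw [cf]
    refine ⟨hN _ ih.1 _ (ih.2 _), fun x => ?_⟩
    simp only [Function.update_apply]
    split_ifs
    · exact hW _ ih.1 _ (ih.2 _)
    · exact ih.2 x

theorem cf_add (A : ℕ → ℕ) (N W : ℕ → ℕ → ℕ) (q : ℕ) (M : ℕ → ℕ) (t r : ℕ) :
    cf A N W (cf A N W q M t).1 (cf A N W q M t).2 r = cf A N W q M (t + r) := by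
  induction r with
  | zero => rfl
  | succ r ih => rw [cf, ih, ← add_assoc, cf]

theorem conf_lt {m : Mach} (hm : m.Ok) (t : ℕ) :
    (m.conf t).1 < 2 ^ m.σ ∧ ∀ x, (m.conf t).2 x < 2 ^ m.σ :=
  cf_lt (fun q _ v _ => hm.hN q v) (fun q _ v _ => hm.hW q v) hm.hq0 hm.hM0 t

theorem nA_lt {m : Mach} (hm : m.Ok) (i a q : ℕ) : m.nA i a q < 2 ^ m.σ := by
  unfold Mach.nA
  rw [ifz_eq01]
  split_ifs
  · exact Nat.mod_lt _ (by positivity)
  · exact hm.hA q

theorem nN_lt {m : Mach} (hm : m.Ok) (i : ℕ) {q : ℕ} (hq : q < 2 ^ m.σ) (v : ℕ) :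
    m.nN i q v < 2 ^ m.σ := by
  unfold Mach.nN
  rw [ifz_eq01]
  split_ifs
  · exact hq
  · exact hm.hN q v

theorem nW_lt {m : Mach} (hm : m.Ok) (i : ℕ) (q : ℕ) {v : ℕ} (hv : v < 2 ^ m.σ) :
    m.nW i q v < 2 ^ m.σ := by
  unfold Mach.nW
  rw [ifz_eq01]
  split_ifs
  · exact hv
  · exact hm.hW q v

theorem nc_lt {m : Mach} (hm : m.Ok) (k i a r : ℕ) :
    (m.nc k i a r).1 < 2 ^ m.σ ∧ ∀ x, (m.nc k i a r).2 x < 2 ^ m.σ :=
  cf_lt (fun _ hq v _ => nN_lt hm i hq v) (fun q _ _ hv => nW_lt hm i q hv)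
    (conf_lt hm _).1 (conf_lt hm _).2 r

theorem nc_zero (m : Mach) (k i a : ℕ) : m.nc k i a 0 = m.conf (k * (m.G * m.b) + i * m.b) := rfl

theorem nc_succ (m : Mach) (k i a r : ℕ) : m.nc k i a (r + 1) =
    (m.nN i (m.nc k i a r).1 ((m.nc k i a r).2 (m.nA i a (m.nc k i a r).1)),
      Function.update (m.nc k i a r).2 (m.nA i a (m.nc k i a r).1)
        (m.nW i (m.nc k i a r).1 ((m.nc k i a r).2 (m.nA i a (m.nc k i a r).1)))) := rfl

theorem nc_ne (m : Mach) {i : ℕ} (h : i ≠ m.G) (k a r : ℕ) :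
    m.nc k i a r = m.conf (k * (m.G * m.b) + i * m.b + r) := by
  have hA : m.nA i a = m.A := funext fun q => nA_ne m h a q
  have hN : m.nN i = m.N := funext fun q => funext fun v => nN_ne m h q v
  have hW : m.nW i = m.W := funext fun q => funext fun v => nW_ne m h q v
  unfold Mach.nc
  rw [hA, hN, hW]
  exact cf_add _ _ _ _ _ _ _

/-! ### Cells -/

theorem wd_eq (m : Mach) : m.wd = m.σ + 2 * m.σ * m.b := by unfold Mach.wd; ring

theorem cell_state (m : Mach) (q : ℕ) (f g : ℕ → ℕ) {o : ℕ} (ho : o < m.σ) :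
    m.cell q f g o = dig 2 q o := by
  have h1 : o < m.wd := by rw [wd_eq]; exact lt_of_lt_of_le ho (Nat.le_add_right _ _)
  unfold Mach.cell lt01
  rw [if_pos h1, if_pos ho, one_mul, ifz_ne one_ne_zero]

theorem entry_lt (m : Mach) {e o : ℕ} (he : e < m.b) (ho : o < 2 * m.σ) :
    m.σ + 2 * m.σ * e + o < m.wd := by
  rw [wd_eq]
  have : 2 * m.σ * (e + 1) ≤ 2 * m.σ * m.b := Nat.mul_le_mul_left _ he
  rw [Nat.mul_add] at this
  omega

theorem cell_addr (m : Mach) (q : ℕ) (f g : ℕ → ℕ) {e o : ℕ} (he : e < m.b) (ho : o < m.σ) :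
    m.cell q f g (m.σ + 2 * m.σ * e + o) = dig 2 (f e) o := by
  have h1 : m.σ + 2 * m.σ * e + o < m.wd := entry_lt m he (by omega)
  have h2 : ¬ (m.σ + 2 * m.σ * e + o < m.σ) := by omega
  have h3 : m.σ + 2 * m.σ * e + o - m.σ = o + 2 * m.σ * e := by omega
  have h4 : (o + 2 * m.σ * e) % (2 * m.σ) = o := by
    rw [Nat.add_mul_mod_self_left, Nat.mod_eq_of_lt (by omega)]
  have h5 : (o + 2 * m.σ * e) / (2 * m.σ) = e := by
    rw [Nat.add_mul_div_left _ _ (by omega), Nat.div_eq_of_lt (by omega), zero_add]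
  unfold Mach.cell lt01
  rw [if_pos h1, if_neg h2, one_mul, ifz_zero, h3, h4, h5, if_pos ho, ifz_ne one_ne_zero]

theorem cell_val (m : Mach) (q : ℕ) (f g : ℕ → ℕ) {e o : ℕ} (he : e < m.b) (ho : o < m.σ) :
    m.cell q f g (m.σ + 2 * m.σ * e + m.σ + o) = dig 2 (g e) o := by
  have h1 : m.σ + 2 * m.σ * e + m.σ + o < m.wd := by
    have := entry_lt m (e := e) (o := m.σ + o) he (by omega)
    omega
  have h2 : ¬ (m.σ + 2 * m.σ * e + m.σ + o < m.σ) := by omega
  have h3 : m.σ + 2 * m.σ * e + m.σ + o - m.σ = (m.σ + o) + 2 * m.σ * e := by omega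
  have h4 : ((m.σ + o) + 2 * m.σ * e) % (2 * m.σ) = m.σ + o := by
    rw [Nat.add_mul_mod_self_left, Nat.mod_eq_of_lt (by omega)]
  have h5 : ((m.σ + o) + 2 * m.σ * e) / (2 * m.σ) = e := by
    rw [Nat.add_mul_div_left _ _ (by omega), Nat.div_eq_of_lt (by omega), zero_add]
  have h6 : ¬ (m.σ + o < m.σ) := by omega
  unfold Mach.cell lt01
  rw [if_pos h1, if_neg h2, one_mul, ifz_zero, h3, h4, h5, if_neg h6, ifz_zero,
    Nat.add_sub_cancel_left]

theorem cell_congr (m : Mach) {q q' : ℕ} {f g f' g' : ℕ → ℕ} (hq : q = q')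
    (hf : ∀ e < m.b, f e = f' e) (hg : ∀ e < m.b, g e = g' e) (o : ℕ) :
    m.cell q f g o = m.cell q' f' g' o := by
  subst hq
  unfold Mach.cell lt01
  by_cases h1 : o < m.wd
  · by_cases h2 : o < m.σ
    · rw [if_pos h2, ifz_ne one_ne_zero, ifz_ne one_ne_zero]
    · have h3 : (o - m.σ) / (2 * m.σ) < m.b := by
        rw [wd_eq] at h1
        by_contra h4
        push Not at h4
        have h5 := (Nat.mul_le_mul_left (2 * m.σ) h4).trans (Nat.mul_div_le (o - m.σ) (2 * m.σ))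
        omega
      rw [hf _ h3, hg _ h3]
  · rw [if_neg h1, zero_mul, zero_mul]

/-! ### Equality of bits -/

theorem eqc_bits {p σ q q' : ℕ} (hq : q < 2 ^ σ) (hq' : q' < 2 ^ σ) {X : ℕ → ZMod p}
    (hX : ∀ o < σ, X o = ((dig 2 q' o : ℕ) : ZMod p)) :
    Mach.eqc p σ q X = if q = q' then 1 else 0 := by
  unfold Mach.eqc
  split_ifs with h
  · refine Finset.prod_eq_one fun o ho => ?_
    rw [hX o (mem_range.mp ho), ← h]
    rcases dig_two q o with h1 | h1 <;> rw [h1] <;> simp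
  · have h1 : ∃ o < σ, dig 2 q o ≠ dig 2 q' o := by
      by_contra hc
      push Not at hc
      exact h (by rw [← tab_dig q σ hq, ← tab_dig q' σ hq', tab_congr hc])
    obtain ⟨o, ho, h2⟩ := h1
    refine Finset.prod_eq_zero (mem_range.mpr ho) ?_
    rw [hX o ho]
    rcases dig_two q o with h1 | h1 <;> rcases dig_two q' o with h3 | h3 <;>
      rw [h1, h3] at h2 ⊢ <;> first | exact absurd rfl h2 | simp

/-! ### Equality with the content of a register -/

theorem hr_step (m : Mach) (p : ℕ) {x v : ℕ} (hx : x < 2 ^ m.σ) (hv : v < 2 ^ m.σ)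
    {h : ZMod p} {X : ℕ → ℕ → ZMod p} {e α ω : ℕ} (hα : α < 2 ^ m.σ) (hω : ω < 2 ^ m.σ)
    (hXa : ∀ o < m.σ, X (e / m.b) (m.σ + 2 * m.σ * (e % m.b) + o) = ((dig 2 α o : ℕ) : ZMod p))
    (hXw : ∀ o < m.σ, X (e / m.b) (m.σ + 2 * m.σ * (e % m.b) + m.σ + o) =
      ((dig 2 ω o : ℕ) : ZMod p))
    {M : ℕ → ℕ} (hM : m.hr p x v h X e = if v = M x then 1 else 0) :
    m.hr p x v h X (e + 1) = if v = Function.update M α ω x then 1 else 0 := by
  rw [Mach.hr, eqc_bits hx hα hXa, eqc_bits hv hω hXw, hM, Function.update_apply]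
  by_cases h1 : x = α
  · simp only [h1, if_true, one_mul, add_sub_cancel]
  · simp only [h1, if_false, zero_mul, add_zero]

/-! ### The true values -/

/-- The digits of the true transcript. -/
def dt (m : Mach) (k i a : ℕ) : ℕ → ℕ
  | 0 => (m.nc k i a 0).1
  | r + 1 => (m.nc k i a r).2 (m.nA i a (m.nc k i a r).1)

theorem dt_lt {m : Mach} (hm : m.Ok) (k i a j : ℕ) : dt m k i a j < 2 ^ m.σ := by
  cases j with
  | zero => exact (nc_lt hm k i a 0).1
  | succ r => exact (nc_lt hm k i a r).2 _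

/-- The state cells of the node `i`. -/
theorem V_state (m : Mach) (p : ℕ) (k i a : ℕ) {o : ℕ} (ho : o < m.σ) :
    m.V p k i a o = ((dig 2 (m.nc k i a m.b).1 o : ℕ) : ZMod p) := by
  unfold Mach.V; rw [cell_state m _ _ _ ho]

theorem V_addr (m : Mach) (p : ℕ) (k i a : ℕ) {e o : ℕ} (he : e < m.b) (ho : o < m.σ) :
    m.V p k i a (m.σ + 2 * m.σ * e + o) =
      ((dig 2 (m.nA i a (m.nc k i a e).1) o : ℕ) : ZMod p) := by
  unfold Mach.V; rw [cell_addr m _ _ _ he ho]

theorem V_val (m : Mach) (p : ℕ) (k i a : ℕ) {e o : ℕ} (he : e < m.b) (ho : o < m.σ) :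
    m.V p k i a (m.σ + 2 * m.σ * e + m.σ + o) =
      ((dig 2 (m.nW i (m.nc k i a e).1 ((m.nc k i a e).2 (m.nA i a (m.nc k i a e).1))) o : ℕ) :
        ZMod p) := by
  unfold Mach.V; rw [cell_val m _ _ _ he ho]

section

variable {m : Mach} {p k i a : ℕ}

/-- The states of a transcript which begins with the true digits. -/
theorem tq_eq {y r : ℕ} (hy : ∀ j ≤ r, dig (2 ^ m.σ) y j = dt m k i a j) :
    m.tq i y r = (m.nc k i a r).1 := by
  induction r with
  | zero => exact hy 0 le_rfl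
  | succ r ih =>
    have h1 := ih fun j hj => hy j (by omega)
    have h2 : m.tq i y (r + 1) = m.nN i (m.tq i y r) (m.tv y r) := rfl
    have h3 : m.tv y r = dt m k i a (r + 1) := hy (r + 1) le_rfl
    rw [h2, h1, h3, nc_succ]
    rfl

/-- The history, before the sub-block `i`. -/
theorem hr_before (hm : m.Ok) (hi : i ≤ m.G) {x v : ℕ} (hx : x < 2 ^ m.σ) (hv : v < 2 ^ m.σ)
    {h : ZMod p} {X : ℕ → ℕ → ZMod p} (hX : ∀ i' < i, X i' = m.V p k i' a)
    (hh : h = if v = (m.conf (k * (m.G * m.b))).2 x then 1 else 0) {e : ℕ} (he : e ≤ i * m.b) :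
    m.hr p x v h X e = if v = (m.conf (k * (m.G * m.b) + e)).2 x then 1 else 0 := by
  induction e with
  | zero => exact hh
  | succ e ih =>
    have hb := hm.hb
    have h1 : e / m.b < i := (Nat.div_lt_iff_lt_mul hb).mpr he
    have h2 : e % m.b < m.b := Nat.mod_lt _ hb
    have h3 : e / m.b ≠ m.G := by omega
    have h4 : m.nc k (e / m.b) a (e % m.b) = m.conf (k * (m.G * m.b) + e) := by
      rw [nc_ne m h3, add_assoc, Nat.div_add_mod' e m.b]
    have h5 := hr_step m p hx hv (h := h) (X := X) (e := e)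
      (α := m.nA (e / m.b) a (m.nc k (e / m.b) a (e % m.b)).1)
      (ω := m.nW (e / m.b) (m.nc k (e / m.b) a (e % m.b)).1
        ((m.nc k (e / m.b) a (e % m.b)).2
          (m.nA (e / m.b) a (m.nc k (e / m.b) a (e % m.b)).1)))
      (nA_lt hm _ _ _) (nW_lt hm _ _ ((nc_lt hm _ _ _ _).2 _))
      (fun o ho => by rw [hX _ h1, V_addr m p k _ a h2 ho])
      (fun o ho => by rw [hX _ h1, V_val m p k _ a h2 ho])
      (M := (m.conf (k * (m.G * m.b) + e)).2) (ih (by omega))
    rw [h5, h4, nA_ne m h3, nW_ne m h3]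
    rfl

/-- The history, in the sub-block `i`. -/
theorem hr_in (hm : m.Ok) (hi : i ≤ m.G) {x v y : ℕ} (hx : x < 2 ^ m.σ) (hv : v < 2 ^ m.σ)
    {h : ZMod p} {X : ℕ → ℕ → ZMod p} (hX : ∀ i' < i, X i' = m.V p k i' a)
    (hXi : ∀ o, X i o = ((m.outc i a y o : ℕ) : ZMod p))
    (hh : h = if v = (m.conf (k * (m.G * m.b))).2 x then 1 else 0) {r : ℕ} (hr : r ≤ m.b)
    (hy : ∀ j ≤ r, dig (2 ^ m.σ) y j = dt m k i a j) :
    m.hr p x v h X (i * m.b + r) = if v = (m.nc k i a r).2 x then 1 else 0 := by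
  induction r with
  | zero => exact hr_before hm hi hx hv hX hh le_rfl
  | succ r ih =>
    have hb := hm.hb
    have h0 : r < m.b := hr
    have h1 : (i * m.b + r) / m.b = i := by
      rw [mul_comm, Nat.mul_add_div hb, Nat.div_eq_of_lt h0, add_zero]
    have h2 : (i * m.b + r) % m.b = r := by
      rw [mul_comm, Nat.mul_add_mod, Nat.mod_eq_of_lt h0]
    have h3 : m.tq i y r = (m.nc k i a r).1 := tq_eq fun j hj => hy j (by omega)
    have h4 : m.tv y r = (m.nc k i a r).2 (m.nA i a (m.nc k i a r).1) := hy (r + 1) le_rfl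
    have h6 : m.ta i a y r = m.nA i a (m.nc k i a r).1 := by unfold Mach.ta; rw [h3]
    have h7 : m.tw i y r = m.nW i (m.nc k i a r).1
        ((m.nc k i a r).2 (m.nA i a (m.nc k i a r).1)) := by unfold Mach.tw; rw [h3, h4]
    have h5 := hr_step m p hx hv (h := h) (X := X) (e := i * m.b + r)
      (α := m.ta i a y r) (ω := m.tw i y r)
      (by rw [h6]; exact nA_lt hm _ _ _)
      (by rw [h7]; exact nW_lt hm _ _ ((nc_lt hm _ _ _ _).2 _))
      (fun o ho => by
        rw [h1, h2, hXi]; unfold Mach.outc; rw [cell_addr m _ _ _ h0 ho])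
      (fun o ho => by
        rw [h1, h2, hXi]; unfold Mach.outc; rw [cell_val m _ _ _ h0 ho])
      (M := (m.nc k i a r).2) (ih (by omega) fun j hj => hy j (by omega))
    rw [← add_assoc, h5, nc_succ, h6, h7]

/-- The comparison of the state at the start. -/
theorem start_eq (hm : m.Ok) (hi : i ≤ m.G) {q x : ℕ} (hq : q < 2 ^ m.σ) :
    Mach.eqc p m.σ q (if i = 0 then m.T p k x else m.V p k (i - 1) a) =
      if q = dt m k i a 0 then 1 else 0 := by
  refine eqc_bits hq (dt_lt hm k i a 0) fun o ho => ?_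
  by_cases h : i = 0
  · rw [if_pos h]
    unfold Mach.T Mach.topc
    rw [cell_state m _ _ _ ho]
    subst h
    simp only [dt, nc_zero, zero_mul, add_zero]
  · rw [if_neg h, V_state m p k (i - 1) a ho, nc_ne m (by omega)]
    have h1 : k * (m.G * m.b) + (i - 1) * m.b + m.b = k * (m.G * m.b) + i * m.b := by
      obtain ⟨j, rfl⟩ := Nat.exists_eq_succ_of_ne_zero h
      simp only [Nat.succ_eq_add_one, Nat.add_sub_cancel]
      ring
    rw [h1]
    rfl

/-- The start value of the history. -/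
theorem init_eq (hm : m.Ok) {v x : ℕ} (hv : v < 2 ^ m.σ) :
    Mach.eqc p m.σ v (fun o => m.T p k x (2 * m.σ + o)) =
      if v = (m.conf (k * (m.G * m.b))).2 x then 1 else 0 := by
  refine eqc_bits hv ((conf_lt hm _).2 x) fun o ho => ?_
  unfold Mach.T Mach.topc
  have h := cell_val m (m.conf (k * (m.G * m.b))).1 (fun _ => x)
    (fun _ => (m.conf (k * (m.G * m.b))).2 x) (e := 0) hm.hb ho
  have h1 : m.σ + 2 * m.σ * 0 + m.σ + o = 2 * m.σ + o := by ring
  rw [h1] at h
  rw [h]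

/-- The factor `r` of a transcript which begins with the true digits `0, …, r`. -/
theorem fct_eq (hm : m.Ok) (hi : i ≤ m.G) {y r : ℕ} (hr : r < m.b)
    (hy : ∀ j ≤ r, dig (2 ^ m.σ) y j = dt m k i a j) :
    m.fct p i a y r (m.T p k (m.ta i a y r)) (fun i' o => m.V p k i' a o) =
      if dig (2 ^ m.σ) y (r + 1) = dt m k i a (r + 1) then 1 else 0 := by
  have h2 : 0 < 2 ^ m.σ := by positivity
  have hta : m.ta i a y r < 2 ^ m.σ := nA_lt hm _ _ _
  have htv : m.tv y r < 2 ^ m.σ := dig_lt h2 _ _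
  have h3 : m.ta i a y r = m.nA i a (m.nc k i a r).1 := by unfold Mach.ta; rw [tq_eq hy]
  have hpart := hr_in (p := p) (k := k) (a := a) (y := y) hm hi hta htv
    (h := Mach.eqc p m.σ (m.tv y r) fun o => m.T p k (m.ta i a y r) (2 * m.σ + o))
    (X := fun i' o => if i' = i then ((m.outc i a y o : ℕ) : ZMod p) else m.V p k i' a o)
    (fun i' hi' => by funext o; exact if_neg (by omega)) (fun o => if_pos rfl)
    (init_eq hm htv) (r := r) (by omega) hy
  have hfirst : (if r = 0 then Mach.eqc p m.σ (dig (2 ^ m.σ) y 0)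
      (if i = 0 then m.T p k (m.ta i a y r) else (fun i' o => m.V p k i' a o) (i - 1)) else 1) =
      (1 : ZMod p) := by
    split_ifs with h h'
    · have := start_eq (p := p) (k := k) (a := a) (x := m.ta i a y r) hm hi
        (dig_lt h2 y 0)
      rw [if_pos h', if_pos (hy 0 (Nat.zero_le _))] at this
      exact this
    · have := start_eq (p := p) (k := k) (a := a) (x := m.ta i a y r) hm hi
        (dig_lt h2 y 0)
      rw [if_neg h', if_pos (hy 0 (Nat.zero_le _))] at this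
      exact this
    · rfl
  unfold Mach.fct
  rw [hfirst, one_mul, hpart, h3]
  rfl

/-- The factor `0`. -/
theorem fct_zero (hm : m.Ok) (hi : i ≤ m.G) {y : ℕ}
    (hy : dig (2 ^ m.σ) y 0 ≠ dt m k i a 0) :
    m.fct p i a y 0 (m.T p k (m.ta i a y 0)) (fun i' o => m.V p k i' a o) = 0 := by
  have h2 : 0 < 2 ^ m.σ := by positivity
  have h3 := start_eq (p := p) (k := k) (a := a) (x := m.ta i a y 0) hm hi (dig_lt h2 y 0)
  unfold Mach.fct
  rw [if_pos rfl]
  have h4 : (if i = 0 then m.T p k (m.ta i a y 0) else (fun i' o => m.V p k i' a o) (i - 1)) =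
      (if i = 0 then m.T p k (m.ta i a y 0) else m.V p k (i - 1) a) := rfl
  rw [h4, h3, if_neg hy, zero_mul]

/-- The product of the factors. -/
theorem prod_fct (hm : m.Ok) (hi : i ≤ m.G) (y : ℕ) {n : ℕ} (hn : n < m.b) :
    ∏ r ∈ range (n + 1), m.fct p i a y r (m.T p k (m.ta i a y r))
      (fun i' o => m.V p k i' a o) =
      if ∀ j ≤ n + 1, dig (2 ^ m.σ) y j = dt m k i a j then 1 else 0 := by
  induction n with
  | zero =>
    rw [prod_range_one]
    by_cases h0 : dig (2 ^ m.σ) y 0 = dt m k i a 0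
    · rw [fct_eq hm hi hn fun j hj => by rw [Nat.le_zero.mp hj]; exact h0]
      refine if_congr ⟨fun h j hj => ?_, fun h => h 1 le_rfl⟩ rfl rfl
      rcases Nat.eq_zero_or_pos j with h1 | h1
      · rw [h1]; exact h0
      · rw [show j = 0 + 1 by omega]; exact h
    · rw [fct_zero hm hi h0, if_neg fun h => h0 (h 0 (Nat.zero_le _))]
  | succ n ih =>
    rw [prod_range_succ, ih (by omega)]
    by_cases h0 : ∀ j ≤ n + 1, dig (2 ^ m.σ) y j = dt m k i a j
    · rw [if_pos h0, one_mul, fct_eq hm hi hn h0]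
      refine if_congr ⟨fun h j hj => ?_, fun h => h _ le_rfl⟩ rfl rfl
      rcases Nat.lt_or_ge (n + 1) j with h1 | h1
      · rw [show j = n + 1 + 1 by omega]; exact h
      · exact h0 j h1
    · rw [if_neg h0, zero_mul, if_neg fun h => h0 fun j hj => h j (by omega)]

end

/-- At the true values the polynomials give the true values. -/
theorem TRUTH : TRUTH_stmt := by
  intro m p _ hm k i a o hi
  have h2 : 0 < 2 ^ m.σ := by positivity
  have hpow : 2 ^ (m.σ * (m.b + 1)) = (2 ^ m.σ) ^ (m.b + 1) := by rw [pow_mul]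
  have hb := hm.hb
  obtain ⟨n, hn⟩ : ∃ n, m.b = n + 1 := ⟨m.b - 1, by omega⟩
  have hd : ∀ j < m.b + 1, dt m k i a j < 2 ^ m.σ := fun j _ => dt_lt hm k i a j
  have hy0 : tab (2 ^ m.σ) (m.b + 1) (dt m k i a) < 2 ^ (m.σ * (m.b + 1)) := by
    rw [hpow]; exact tab_lt hd
  have hdig : ∀ j ≤ m.b, dig (2 ^ m.σ) (tab (2 ^ m.σ) (m.b + 1) (dt m k i a)) j =
      dt m k i a j := fun j hj => dig_tab hd (by omega)
  have hprod : ∀ y, ∏ r ∈ range m.b, m.fct p i a y r (m.T p k (m.ta i a y r))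
      (fun i' o => m.V p k i' a o) =
      if ∀ j ≤ m.b, dig (2 ^ m.σ) y j = dt m k i a j then 1 else 0 := by
    intro y
    have := prod_fct (p := p) (k := k) (a := a) hm hi y (n := n) (by omega)
    rw [← hn] at this
    exact this
  unfold Mach.P
  rw [Finset.sum_eq_single (tab (2 ^ m.σ) (m.b + 1) (dt m k i a))]
  · rw [hprod, if_pos hdig, one_mul]
    unfold Mach.outc Mach.V
    rw [cell_congr m (tq_eq hdig) (fun e he => ?_) fun e he => ?_]
    · unfold Mach.ta
      rw [tq_eq fun j hj => hdig j (by omega)]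
    · have h4 : m.tv (tab (2 ^ m.σ) (m.b + 1) (dt m k i a)) e =
          (m.nc k i a e).2 (m.nA i a (m.nc k i a e).1) := hdig (e + 1) he
      unfold Mach.tw
      rw [tq_eq fun j hj => hdig j (by omega), h4]
  · intro y hy hne
    rw [hprod, if_neg, zero_mul]
    intro h
    refine hne ?_
    rw [mem_range, hpow] at hy
    rw [← tab_dig y (m.b + 1) hy]
    exact tab_congr fun j hj => h j (by omega)
  · intro h
    exact absurd (mem_range.mpr hy0) h

end Pool.Agent.Helper77.Ram
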